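import Mathlib

/-!
A Urysohn space (with a coarser compact metrizable topology) that is almost Scheepers and weakly
Scheepers but not weakly Scheepers in the sense of Kocinac.
-/

namespace Pool.Agent.Results.MP_23a291_gt.UrysohnExample

open Set Filter Topology

/-- `𝒰` is an open cover of `X`. -/
def OpenCover {X : Type*} [TopologicalSpace X] (𝒰 : Set (Set X)) : Prop :=
  (∀ U ∈ 𝒰, IsOpen U) ∧ ⋃₀ 𝒰 = Set.univ

/-- `𝒱` is a selection for the sequence `𝒰`: each `𝒱 n` is a finite subset of `𝒰 n`. -/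
def IsSelection {X : Type*} (𝒰 𝒱 : ℕ → Set (Set X)) : Prop :=
  ∀ n, 𝒱 n ⊆ 𝒰 n ∧ (𝒱 n).Finite

/-- almost Scheepers -/
def AlmostScheepers (X : Type*) [TopologicalSpace X] : Prop :=
  ∀ 𝒰 : ℕ → Set (Set X), (∀ n, OpenCover (𝒰 n)) → ∃ 𝒱, IsSelection 𝒰 𝒱 ∧
    ∀ F : Set X, F.Finite → {n | F ⊆ closure (⋃₀ 𝒱 n)}.Infinite

/-- weakly Scheepers -/
def WeaklyScheepers (X : Type*) [TopologicalSpace X] : Prop :=
  ∀ 𝒰 : ℕ → Set (Set X), (∀ n, OpenCover (𝒰 n)) → ∃ 𝒱, IsSelection 𝒰 𝒱 ∧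
    ∀ ℱ : Set (Set X), ℱ.Finite → (∀ U ∈ ℱ, IsOpen U ∧ U.Nonempty) →
      {n | ∀ U ∈ ℱ, (U ∩ ⋃₀ 𝒱 n).Nonempty}.Infinite

/-- weakly Scheepers in the sense of Kocinac -/
def WeaklyScheepersK (X : Type*) [TopologicalSpace X] : Prop :=
  ∀ 𝒰 : ℕ → Set (Set X), (∀ n, OpenCover (𝒰 n)) → ∃ Y : Set X, Dense Y ∧
    ∃ 𝒱, IsSelection 𝒰 𝒱 ∧
      ∀ F : Set X, F ⊆ Y → F.Finite → {n | F ⊆ ⋃₀ 𝒱 n}.Infinite

/-- a basic set in the auxiliary topology on functions -/
def basic (f : ℕ → ℕ) (N : ℕ) (g : ℕ → ℕ) : Set (ℕ → ℕ) :=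
  {h | (∀ n < N, h n ≤ f n) ∧ ∀ᶠ n in atTop, g n < h n}

/-- auxiliary hyperconnected topology on functions -/
@[reducible] def rho : TopologicalSpace (ℕ → ℕ) where
  IsOpen R := ∀ f ∈ R, ∃ N g, basic f N g ⊆ R
  isOpen_univ := fun f _ => ⟨0, f, subset_univ _⟩
  isOpen_inter := by
    intro s t hs ht f hf
    obtain ⟨N1, g1, h1⟩ := hs f hf.1
    obtain ⟨N2, g2, h2⟩ := ht f hf.2
    refine ⟨max N1 N2, fun n => max (g1 n) (g2 n), ?_⟩
    intro h hh
    refine ⟨h1 ⟨fun n hn => hh.1 n (lt_of_lt_of_le hn (le_max_left _ _)), ?_⟩,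
      h2 ⟨fun n hn => hh.1 n (lt_of_lt_of_le hn (le_max_right _ _)), ?_⟩⟩
    · exact hh.2.mono (fun n hn => lt_of_le_of_lt (le_max_left _ _) hn)
    · exact hh.2.mono (fun n hn => lt_of_le_of_lt (le_max_right _ _) hn)
  isOpen_sUnion := by
    intro 𝒮 h f hf
    obtain ⟨s, hs, hfs⟩ := hf
    obtain ⟨N, g, hg⟩ := h s hs f hfs
    exact ⟨N, g, hg.trans (subset_sUnion_of_mem hs)⟩

theorem rho_open_iff (R : Set (ℕ → ℕ)) : IsOpen[rho] R ↔ ∀ f ∈ R, ∃ N g, basic f N g ⊆ R :=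
  Iff.rfl

theorem rho_hyper {R S : Set (ℕ → ℕ)} (hR : IsOpen[rho] R) (hS : IsOpen[rho] S)
    (hRn : R.Nonempty) (hSn : S.Nonempty) : (R ∩ S).Nonempty := by
  obtain ⟨f1, hf1⟩ := hRn
  obtain ⟨f2, hf2⟩ := hSn
  obtain ⟨N1, g1, h1⟩ := (rho_open_iff R).1 hR f1 hf1
  obtain ⟨N2, g2, h2⟩ := (rho_open_iff S).1 hS f2 hf2
  refine ⟨fun n => if n < max N1 N2 then 0 else max (g1 n) (g2 n) + 1, h1 ⟨?_, ?_⟩, h2 ⟨?_, ?_⟩⟩
  · intro n hn
    have : n < max N1 N2 := lt_of_lt_of_le hn (le_max_left _ _)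
    simp [this]
  · filter_upwards [eventually_ge_atTop (max N1 N2)] with n hn
    rw [if_neg (not_lt.2 hn)]
    exact Nat.lt_succ_of_le (le_max_left _ _)
  · intro n hn
    have : n < max N1 N2 := lt_of_lt_of_le hn (le_max_right _ _)
    simp [this]
  · filter_upwards [eventually_ge_atTop (max N1 N2)] with n hn
    rw [if_neg (not_lt.2 hn)]
    exact Nat.lt_succ_of_le (le_max_right _ _)

/-- the code of a function: the set of its finite initial segments -/
noncomputable def code (f : ℕ → ℕ) : List ℕ → Bool := by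
  classical
  exact fun l => decide (l = (List.range l.length).map f)

theorem code_true (f : ℕ → ℕ) (k : ℕ) : code f ((List.range k).map f) = true := by
  simp [code]

theorem code_diff {f g : ℕ → ℕ} (h : f ≠ g) : {l | code f l ≠ code g l}.Infinite := by
  obtain ⟨j, hj⟩ := Function.ne_iff.1 h
  have hinj : Function.Injective (fun k : ℕ => (List.range (j + 1 + k)).map f) := by
    intro a b hab
    have := congrArg List.length hab
    simpa using this
  refine (Set.infinite_range_of_injective hinj).mono ?_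
  rintro _ ⟨k, rfl⟩
  simp only [mem_setOf_eq]
  rw [code_true]
  intro hcon
  have h2 : code g ((List.range (j + 1 + k)).map f) = true := hcon.symm
  simp only [code, List.length_map, List.length_range, decide_eq_true_eq] at h2
  have h3 : ∀ i ∈ List.range (j + 1 + k), f i = g i := List.map_inj_left.1 h2
  exact hj (h3 j (List.mem_range.2 (by omega)))

/-- the decoding map: all of its fibres are dense -/
noncomputable def phi (z : List ℕ → Bool) : ℕ → ℕ := by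
  classical
  exact if h : ∃ f, {l | z l ≠ code f l}.Finite then h.choose else fun _ => 0

theorem phi_eq {z : List ℕ → Bool} {f : ℕ → ℕ} (h : {l | z l ≠ code f l}.Finite) :
    phi z = f := by
  classical
  have hex : ∃ f, {l | z l ≠ code f l}.Finite := ⟨f, h⟩
  have hphi : phi z = hex.choose := by
    unfold phi
    rw [dif_pos hex]
  rw [hphi]
  by_contra hne
  refine code_diff hne ((hex.choose_spec.union h).subset ?_)
  intro l hl
  by_contra hcon
  simp only [mem_union, mem_setOf_eq, not_or, not_not] at hcon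
  exact hl (hcon.1.symm.trans hcon.2)

theorem phi_dense {O : Set (List ℕ → Bool)} (hO : IsOpen O) (hne : O.Nonempty) (f : ℕ → ℕ) :
    ∃ z ∈ O, phi z = f := by
  classical
  obtain ⟨z0, hz0⟩ := hne
  obtain ⟨I, u, hu, hsub⟩ := isOpen_pi_iff.1 hO z0 hz0
  refine ⟨fun l => if l ∈ I then z0 l else code f l, hsub ?_, phi_eq ?_⟩
  · intro l hl
    have hl' : l ∈ I := hl
    simp only [hl', if_true]
    exact (hu l hl').2
  · refine I.finite_toSet.subset ?_
    intro l hl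
    by_contra hcon
    have hcon' : l ∉ I := hcon
    exact hl (by simp [hcon'])

/-- the topology of the example -/
@[reducible] noncomputable def sigma : TopologicalSpace (List ℕ → Bool) :=
  (Pi.topologicalSpace : TopologicalSpace (List ℕ → Bool)) ⊓ TopologicalSpace.induced phi rho

theorem sigma_nhd {U : Set (List ℕ → Bool)} (hU : IsOpen[sigma] U) {z : List ℕ → Bool}
    (hz : z ∈ U) : ∃ (O : Set (List ℕ → Bool)) (R : Set (ℕ → ℕ)), IsOpen O ∧ IsOpen[rho] R ∧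
      z ∈ O ∧ phi z ∈ R ∧ O ∩ phi ⁻¹' R ⊆ U := by
  have h1 : U ∈ @nhds _ sigma z := @IsOpen.mem_nhds _ sigma _ _ hU hz
  rw [nhds_inf, Filter.mem_inf_iff] at h1
  obtain ⟨s, hs, t, ht, rfl⟩ := h1
  rw [@nhds_induced _ _ rho phi z, Filter.mem_comap] at ht
  obtain ⟨r, hr, hrt⟩ := ht
  obtain ⟨O, hOs, hO, hzO⟩ := mem_nhds_iff.1 hs
  obtain ⟨R, hRr, hR, hzR⟩ := (@mem_nhds_iff _ rho _ _).1 hr
  refine ⟨O, R, hO, hR, hzO, hzR, ?_⟩
  rintro x ⟨hx1, hx2⟩
  exact ⟨hOs hx1, hrt (hRr hx2)⟩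

theorem sigma_open {O : Set (List ℕ → Bool)} {R : Set (ℕ → ℕ)} (hO : IsOpen O)
    (hR : IsOpen[rho] R) : IsOpen[sigma] (O ∩ phi ⁻¹' R) := by
  have h1 : IsOpen[sigma] O := (inf_le_left : sigma ≤ _) O hO
  have h2 : IsOpen[sigma] (phi ⁻¹' R) :=
    (inf_le_right : sigma ≤ _) _ (@isOpen_induced _ _ rho phi R hR)
  exact @IsOpen.inter _ sigma _ _ h1 h2

/-- Every sigma-open cover has a finite subfamily with dense union. -/
theorem almost_compact (𝒰 : Set (Set (List ℕ → Bool)))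
    (h𝒰 : @OpenCover _ sigma 𝒰) : ∃ 𝒱 ⊆ 𝒰, 𝒱.Finite ∧ @Dense _ sigma (⋃₀ 𝒱) := by
  classical
  have hch : ∀ z : List ℕ → Bool, ∃ (U : Set (List ℕ → Bool)) (O : Set (List ℕ → Bool))
      (R : Set (ℕ → ℕ)), U ∈ 𝒰 ∧ IsOpen O ∧ IsOpen[rho] R ∧
      z ∈ O ∧ phi z ∈ R ∧ O ∩ phi ⁻¹' R ⊆ U := by
    intro z
    have : z ∈ ⋃₀ 𝒰 := by rw [h𝒰.2]; trivial
    obtain ⟨U, hU, hzU⟩ := this
    obtain ⟨O, R, h⟩ := sigma_nhd (h𝒰.1 U hU) hzU
    exact ⟨U, O, R, hU, h⟩
  choose U O R hU hO hR hzO hzR hsub using hch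
  obtain ⟨t, ht⟩ := isCompact_univ.elim_finite_subcover O hO
    (fun z _ => mem_iUnion.2 ⟨z, hzO z⟩)
  refine ⟨U '' (↑t : Set (List ℕ → Bool)), ?_, t.finite_toSet.image _, ?_⟩
  · rintro _ ⟨z, _, rfl⟩; exact hU z
  · rw [@dense_iff_inter_open _ sigma _]
    intro V hV hVne
    obtain ⟨x, hx⟩ := hVne
    obtain ⟨O', R', hO', hR', hxO', hxR', hsub'⟩ := sigma_nhd hV hx
    have hxt := ht (mem_univ x)
    simp only [mem_iUnion, exists_prop] at hxt
    obtain ⟨z, hzt, hxz⟩ := hxt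
    obtain ⟨f, hf⟩ := rho_hyper hR' (hR z) ⟨_, hxR'⟩ ⟨_, hzR z⟩
    obtain ⟨y, hy, hyf⟩ := phi_dense (hO'.inter (hO z)) ⟨x, hxO', hxz⟩ f
    refine ⟨y, hsub' ⟨hy.1, ?_⟩, U z, ⟨z, hzt, rfl⟩, hsub z ⟨hy.2, ?_⟩⟩
    · change phi y ∈ R'
      rw [hyf]; exact hf.1
    · change phi y ∈ R z
      rw [hyf]; exact hf.2

theorem result : ∃ (X : Type) (σ : TopologicalSpace X), T25Space X ∧
    (∃ t : TopologicalSpace X, σ ≤ t ∧
      @CompactSpace X t ∧ @TopologicalSpace.MetrizableSpace X t) ∧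
    AlmostScheepers X ∧ WeaklyScheepers X ∧ ¬ WeaklyScheepersK X := by
  classical
  refine ⟨List ℕ → Bool, sigma, ?_, ?_, ?_, ?_, ?_⟩
  · have hcont : @Continuous _ _ sigma Pi.topologicalSpace (id : (List ℕ → Bool) → _) :=
      continuous_id_iff_le.2 inf_le_left
    exact @T25Space.of_injective_continuous _ _ sigma Pi.topologicalSpace inferInstance id
      Function.injective_id hcont
  · exact ⟨Pi.topologicalSpace, inf_le_left, inferInstance, inferInstance⟩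
  · intro 𝒰 h𝒰
    choose 𝒱 h1 h2 h3 using fun n => almost_compact (𝒰 n) (h𝒰 n)
    refine ⟨𝒱, fun n => ⟨h1 n, h2 n⟩, ?_⟩
    intro F _
    have : {n | F ⊆ @closure _ sigma (⋃₀ 𝒱 n)} = Set.univ := by
      ext n
      simp only [mem_setOf_eq, mem_univ, iff_true]
      rw [@Dense.closure_eq _ sigma _ (h3 n)]
      exact subset_univ _
    rw [this]
    exact Set.infinite_univ
  · intro 𝒰 h𝒰
    choose 𝒱 h1 h2 h3 using fun n => almost_compact (𝒰 n) (h𝒰 n)
    refine ⟨𝒱, fun n => ⟨h1 n, h2 n⟩, ?_⟩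
    intro ℱ _ hℱ
    have : {n | ∀ U ∈ ℱ, (U ∩ ⋃₀ 𝒱 n).Nonempty} = Set.univ := by
      ext n
      simp only [mem_setOf_eq, mem_univ, iff_true]
      intro U hU
      exact (@Dense.inter_open_nonempty _ sigma _ (h3 n)) U (hℱ U hU).1 (hℱ U hU).2
    rw [this]
    exact Set.infinite_univ
  · intro hK
    let U : ℕ → ℕ → Set (List ℕ → Bool) := fun n m => phi ⁻¹' {f | f n ≤ m}
    have hUo : ∀ n m, IsOpen[sigma] (U n m) := by
      intro n m
      have hR : IsOpen[rho] {f : ℕ → ℕ | f n ≤ m} := by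
        rw [rho_open_iff]
        intro f hf
        refine ⟨n + 1, fun _ => 0, ?_⟩
        intro h hh
        exact (hh.1 n (Nat.lt_succ_self n)).trans hf
      have := sigma_open isOpen_univ hR
      rwa [univ_inter] at this
    obtain ⟨Y, hY, 𝒱, h𝒱, hfin⟩ := hK (fun n => Set.range (U n)) (by
      intro n
      refine ⟨?_, ?_⟩
      · rintro _ ⟨m, rfl⟩; exact hUo n m
      · rw [eq_univ_iff_forall]
        intro z
        exact ⟨U n (phi z n), ⟨_, rfl⟩, le_refl (phi z n)⟩)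
    have hbound : ∀ n, ∃ m, ⋃₀ 𝒱 n ⊆ U n m := by
      intro n
      have hch : ∀ V ∈ 𝒱 n, ∃ m, V = U n m := by
        intro V hV
        obtain ⟨m, hm⟩ := (h𝒱 n).1 hV
        exact ⟨m, hm.symm⟩
      choose! k hk using hch
      obtain ⟨M, hM⟩ := ((h𝒱 n).2.image k).bddAbove
      refine ⟨M, ?_⟩
      rintro z ⟨V, hV, hzV⟩
      rw [hk V hV] at hzV
      exact le_trans hzV (hM ⟨V, hV, rfl⟩)
    choose g hg using hbound
    have hD : IsOpen[rho] {f : ℕ → ℕ | ∀ᶠ n in atTop, g n < f n} := by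
      rw [rho_open_iff]
      intro f hf
      exact ⟨0, g, fun h hh => hh.2⟩
    have hDo : IsOpen[sigma] (phi ⁻¹' {f : ℕ → ℕ | ∀ᶠ n in atTop, g n < f n}) := by
      have := sigma_open isOpen_univ hD
      rwa [univ_inter] at this
    have hDne : (phi ⁻¹' {f : ℕ → ℕ | ∀ᶠ n in atTop, g n < f n}).Nonempty := by
      obtain ⟨z, _, hz⟩ := phi_dense isOpen_univ (⟨fun _ => true, trivial⟩ : (univ).Nonempty)
        (fun n => g n + 1)
      refine ⟨z, ?_⟩
      change ∀ᶠ n in atTop, g n < phi z n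
      rw [hz]
      exact Eventually.of_forall (fun n => Nat.lt_succ_self _)
    obtain ⟨y, hyD, hyY⟩ := (@Dense.inter_open_nonempty _ sigma _ hY) _ hDo hDne
    have hinf := hfin {y} (by simpa using hyY) (Set.finite_singleton y)
    have hev : ∀ᶠ n in atTop, g n < phi y n := hyD
    obtain ⟨N, hN⟩ := eventually_atTop.1 hev
    apply hinf
    refine (Set.finite_lt_nat N).subset ?_
    intro n hn
    by_contra hcon
    have h1 : y ∈ U n (g n) := hg n (hn rfl)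
    have h2 : phi y n ≤ g n := h1
    exact absurd (hN n (not_lt.1 hcon)) (not_lt.2 h2)

end Pool.Agent.Results.MP_23a291_gt.UrysohnExample
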